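import Pool.Agent.H10.FEW.Stmts
import Pool.Agent.H86.BtWeak

/-!
# FEW: Brun-Titchmarsh for the residue class 1 modulo q (Selberg's sieve)
-/

set_option autoImplicit false

open Finset Real
open scoped ArithmeticFunction.Moebius

namespace Pool.FEW.BTQaux

open Pool.Agent.H86

noncomputable section

/-- squarefree numbers in `[1,R]` coprime to `q`. -/
def S (q R : ℕ) : Finset ℕ := (Finset.Icc 1 R).filter (fun d => Squarefree d ∧ d.Coprime q)

theorem mem_S {q R d : ℕ} : d ∈ S q R ↔ (1 ≤ d ∧ d ≤ R) ∧ Squarefree d ∧ d.Coprime q := by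
  simp [S]

theorem S_dvd {q R d e : ℕ} (hd : d ∈ S q R) (he : e ∣ d) : e ∈ S q R := by
  rw [mem_S] at *
  have h1 : 0 < d := hd.1.1
  have h2 : e ≤ d := Nat.le_of_dvd h1 he
  exact ⟨⟨Nat.pos_of_dvd_of_pos he h1, h2.trans hd.1.2⟩, hd.2.1.squarefree_of_dvd he,
    Nat.Coprime.coprime_dvd_left he hd.2.2⟩

def G (q R : ℕ) : ℝ := ∑ l ∈ S q R, 1 / (Nat.totient l : ℝ)

/-- Selberg weights. -/
def lam (q R d : ℕ) : ℝ :=
  (μ d : ℝ) * d / G q R * ∑ l ∈ (S q R).filter (d ∣ ·), 1 / (Nat.totient l : ℝ)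

theorem one_mem_S {q R : ℕ} (hR : 1 ≤ R) : 1 ∈ S q R := by
  rw [mem_S]; exact ⟨⟨le_refl _, hR⟩, squarefree_one, Nat.coprime_one_left q⟩

theorem G_pos {q R : ℕ} (hR : 1 ≤ R) : 0 < G q R := by
  unfold G
  apply Finset.sum_pos
  · intro l hl
    have := (mem_S.1 hl).1.1
    have h2 : 0 < Nat.totient l := Nat.totient_pos.2 this
    positivity
  · exact ⟨1, one_mem_S hR⟩

theorem lam_one {q R : ℕ} (hR : 1 ≤ R) : lam q R 1 = 1 := by
  have := (G_pos (q := q) hR).ne'
  unfold lam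
  simp only [ArithmeticFunction.moebius_apply_one, Int.cast_one, Nat.cast_one, mul_one, one_dvd,
    Finset.filter_true]
  change 1 / G q R * G q R = 1
  field_simp

theorem abs_lam_le {q R : ℕ} (hR : 1 ≤ R) (d : ℕ) : |lam q R d| ≤ d := by
  have hG := G_pos (q := q) hR
  have h1 : ∑ l ∈ (S q R).filter (d ∣ ·), 1 / (Nat.totient l : ℝ) ≤ G q R := by
    unfold G
    apply Finset.sum_le_sum_of_subset_of_nonneg (Finset.filter_subset _ _)
    intros; positivity
  have h0 : 0 ≤ ∑ l ∈ (S q R).filter (d ∣ ·), 1 / (Nat.totient l : ℝ) := by positivity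
  unfold lam
  have h2 : |(μ d : ℝ)| ≤ 1 := by
    have := ArithmeticFunction.abs_moebius_le_one (n := d)
    exact_mod_cast this
  rw [abs_mul, abs_div, abs_mul, abs_of_nonneg h0, abs_of_pos hG, Nat.abs_cast]
  calc |(μ d : ℝ)| * d / G q R * ∑ l ∈ (S q R).filter (d ∣ ·), 1 / (Nat.totient l : ℝ)
      ≤ 1 * d / G q R * G q R := by gcongr
    _ = d := by field_simp

/-- `∑_{l ∣ d ∣ m} μ d = μ l [m = l]` for squarefree `m`. -/
theorem sum_moebius_between {q R l m : ℕ} (hm : m ∈ S q R) (hl : l ∣ m) :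
    ∑ d ∈ (S q R).filter (fun d => l ∣ d ∧ d ∣ m), (μ d : ℝ) = if m = l then (μ l : ℝ) else 0 := by
  obtain ⟨k, rfl⟩ := hl
  have hm' := mem_S.1 hm
  have hpos : 0 < l * k := hm'.1.1
  have hl0 : 0 < l := Nat.pos_of_mul_pos_right hpos
  have hk0 : 0 < k := Nat.pos_of_mul_pos_left hpos
  have hcop : Nat.Coprime l k := Nat.coprime_of_squarefree_mul hm'.2.1
  have e1 : (S q R).filter (fun d => l ∣ d ∧ d ∣ l * k) = (k.divisors).image (fun e => l * e) := by
    ext d
    simp only [Finset.mem_filter, Finset.mem_image, Nat.mem_divisors]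
    constructor
    · rintro ⟨hd, ⟨e, rfl⟩, hdk⟩
      refine ⟨e, ⟨(Nat.mul_dvd_mul_iff_left hl0).1 hdk, hk0.ne'⟩, rfl⟩
    · rintro ⟨e, ⟨he, -⟩, rfl⟩
      have : l * e ∣ l * k := Nat.mul_dvd_mul_left _ he
      exact ⟨S_dvd hm this, Nat.dvd_mul_right _ _, this⟩
  rw [e1, Finset.sum_image]
  · have e2 : ∀ e ∈ k.divisors, (μ (l * e) : ℝ) = (μ l : ℝ) * (μ e : ℝ) := by
      intro e he
      have he' := (Nat.mem_divisors.1 he).1
      have hc : Nat.Coprime l e := Nat.Coprime.coprime_dvd_right he' hcop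
      rw [ArithmeticFunction.isMultiplicative_moebius.map_mul_of_coprime hc]
      push_cast; ring
    rw [Finset.sum_congr rfl e2, ← Finset.mul_sum]
    have e3 : ∑ e ∈ k.divisors, (μ e : ℝ) = if k = 1 then 1 else 0 := by
      have h : (μ * (ArithmeticFunction.zeta : ArithmeticFunction ℤ) : ArithmeticFunction ℤ) k =
          (1 : ArithmeticFunction ℤ) k := by rw [ArithmeticFunction.moebius_mul_coe_zeta]
      rw [ArithmeticFunction.coe_mul_zeta_apply, ArithmeticFunction.one_apply] at h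
      have h2 : ((∑ e ∈ k.divisors, μ e : ℤ) : ℝ) = ((if k = 1 then 1 else 0 : ℤ) : ℝ) := by
        rw [← h]
      push_cast at h2
      exact h2
    rw [e3]
    by_cases hk : k = 1
    · simp [hk]
    · have : ¬ (l * k = l) := by
        intro h
        apply hk
        have : l * k = l * 1 := by omega
        exact Nat.eq_of_mul_eq_mul_left hl0 this
      simp [hk, this]
  · intro a _ b _ h
    exact Nat.eq_of_mul_eq_mul_left hl0 h

/-- The diagonalised sums. -/
theorem diag {q R l : ℕ} (hl : l ∈ S q R) :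
    ∑ d ∈ (S q R).filter (l ∣ ·), lam q R d / d = (μ l : ℝ) / (Nat.totient l * G q R) := by
  have hG := G_pos (q := q) (R := R) ((mem_S.1 hl).1.1.trans (mem_S.1 hl).1.2)
  have h1 : ∀ d ∈ (S q R).filter (l ∣ ·), lam q R d / d =
      ∑ m ∈ S q R, if d ∣ m then (μ d : ℝ) * (1 / G q R * (1 / (Nat.totient m : ℝ))) else 0 := by
    intro d hd
    have hd' := (Finset.mem_filter.1 hd).1
    have : (d : ℝ) ≠ 0 := by
      have := (mem_S.1 hd').1.1
      positivity
    unfold lam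
    rw [← Finset.sum_filter, ← Finset.mul_sum, ← Finset.mul_sum]
    field_simp
  rw [Finset.sum_congr rfl h1, Finset.sum_comm]
  have h2 : ∀ m ∈ S q R, (∑ d ∈ (S q R).filter (l ∣ ·),
      if d ∣ m then (μ d : ℝ) * (1 / G q R * (1 / (Nat.totient m : ℝ))) else 0) =
      if m = l then (μ l : ℝ) * (1 / G q R * (1 / (Nat.totient m : ℝ))) else 0 := by
    intro m hm
    rw [← Finset.sum_filter, Finset.filter_filter, ← Finset.sum_mul]
    by_cases hlm : l ∣ m
    · rw [sum_moebius_between hm hlm]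
      split_ifs <;> simp
    · have e : (S q R).filter (fun d => l ∣ d ∧ d ∣ m) = ∅ := by
        rw [Finset.filter_eq_empty_iff]
        rintro d - ⟨h, h'⟩
        exact hlm (h.trans h')
      have : m ≠ l := by rintro rfl; exact hlm dvd_rfl
      rw [e]; simp [this]
  rw [Finset.sum_congr rfl h2, Finset.sum_ite_eq' (S q R) l, if_pos hl]
  have : (Nat.totient l : ℝ) ≠ 0 := by
    have := Nat.totient_pos.2 (mem_S.1 hl).1.1
    positivity
  field_simp

/-- The quadratic form. -/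
theorem quad {q R : ℕ} (hR : 1 ≤ R) :
    ∑ d₁ ∈ S q R, ∑ d₂ ∈ S q R, lam q R d₁ * lam q R d₂ / (Nat.lcm d₁ d₂ : ℝ) = 1 / G q R := by
  have hG := G_pos (q := q) hR
  have h1 : ∀ d₁ ∈ S q R, ∀ d₂ ∈ S q R, lam q R d₁ * lam q R d₂ / (Nat.lcm d₁ d₂ : ℝ) =
      ∑ l ∈ S q R, if l ∣ d₁ ∧ l ∣ d₂ then
        (Nat.totient l : ℝ) * ((lam q R d₁ / d₁) * (lam q R d₂ / d₂)) else 0 := by
    intro d₁ h₁ d₂ h₂
    have p1 : (d₁ : ℝ) ≠ 0 := by
      have := (mem_S.1 h₁).1.1; positivity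
    have p2 : (d₂ : ℝ) ≠ 0 := by
      have := (mem_S.1 h₂).1.1; positivity
    rw [← Finset.sum_filter, ← Finset.sum_mul]
    have e1 : (S q R).filter (fun l => l ∣ d₁ ∧ l ∣ d₂) = (Nat.gcd d₁ d₂).divisors := by
      ext l
      simp only [Finset.mem_filter, Nat.mem_divisors, Nat.dvd_gcd_iff]
      constructor
      · rintro ⟨-, h⟩
        refine ⟨h, ?_⟩
        exact (Nat.gcd_pos_of_pos_left _ (mem_S.1 h₁).1.1).ne'
      · rintro ⟨h, -⟩
        exact ⟨S_dvd h₁ h.1, h⟩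
    rw [e1]
    have e2 : (∑ l ∈ (Nat.gcd d₁ d₂).divisors, (Nat.totient l : ℝ)) = (Nat.gcd d₁ d₂ : ℝ) := by
      exact_mod_cast Nat.sum_totient (Nat.gcd d₁ d₂)
    rw [e2]
    have e3 : (Nat.gcd d₁ d₂ : ℝ) * (Nat.lcm d₁ d₂ : ℝ) = (d₁ : ℝ) * d₂ := by
      exact_mod_cast Nat.gcd_mul_lcm d₁ d₂
    have p3 : (Nat.lcm d₁ d₂ : ℝ) ≠ 0 := by
      intro h; rw [h, mul_zero] at e3
      exact (mul_ne_zero p1 p2) e3.symm
    field_simp
    linear_combination (-(lam q R d₁ * lam q R d₂)) * e3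
  have h2 : ∑ d₁ ∈ S q R, ∑ d₂ ∈ S q R, lam q R d₁ * lam q R d₂ / (Nat.lcm d₁ d₂ : ℝ) =
      ∑ l ∈ S q R, (Nat.totient l : ℝ) * (∑ d ∈ (S q R).filter (l ∣ ·), lam q R d / d) ^ 2 := by
    rw [Finset.sum_congr rfl (fun d₁ h₁ => Finset.sum_congr rfl (h1 d₁ h₁))]
    rw [Finset.sum_congr rfl (fun d₁ _ => Finset.sum_comm), Finset.sum_comm]
    refine Finset.sum_congr rfl fun l _ => ?_
    rw [sq, Finset.sum_mul_sum, Finset.mul_sum, Finset.sum_filter]
    refine Finset.sum_congr rfl fun d₁ _ => ?_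
    by_cases h : l ∣ d₁
    · simp only [h, true_and, if_true]
      rw [Finset.mul_sum, Finset.sum_filter]
    · simp [h]
  rw [h2]
  have h3 : ∀ l ∈ S q R, (Nat.totient l : ℝ) * (∑ d ∈ (S q R).filter (l ∣ ·), lam q R d / d) ^ 2 =
      1 / G q R ^ 2 * (1 / (Nat.totient l : ℝ)) := by
    intro l hl
    rw [diag hl]
    have : (Nat.totient l : ℝ) ≠ 0 := by
      have := Nat.totient_pos.2 (mem_S.1 hl).1.1
      positivity
    have hmu : (μ l : ℝ) ^ 2 = 1 := by
      exact_mod_cast ArithmeticFunction.moebius_sq_eq_one_of_squarefree (mem_S.1 hl).2.1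
    rw [div_pow, hmu]
    field_simp
  rw [Finset.sum_congr rfl h3, ← Finset.mul_sum]
  change 1 / G q R ^ 2 * G q R = 1 / G q R
  field_simp

theorem card_mult (q N D : ℕ) (hD : 0 < D) (hc : D.Coprime q) :
    |(((Finset.Ioc 0 N).filter (fun m => D ∣ 1 + q * m)).card : ℝ) - N / D| ≤ 1 := by
  obtain ⟨s, hs⟩ : ∃ s : ℕ, q * s ≡ 1 [MOD D] := by
    rcases Nat.eq_or_lt_of_le (Nat.succ_le_of_lt hD) with h | h
    · exact ⟨0, by rw [← h]; exact Nat.modEq_one⟩
    · obtain ⟨s, -, hs⟩ := Nat.exists_mul_mod_eq_one_of_coprime (Nat.coprime_comm.1 hc) h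
      exact ⟨s, by rw [Nat.ModEq, hs, Nat.mod_eq_of_lt h]⟩
  have key : ∀ m : ℕ, D ∣ 1 + q * m ↔ D ∣ s + m := by
    intro m
    have h1 : q * (s + m) ≡ 1 + q * m [MOD D] := by
      rw [mul_add]
      exact Nat.ModEq.add_right _ hs
    have h2 : D ∣ 1 + q * m ↔ D ∣ q * (s + m) := by
      rw [← Nat.modEq_zero_iff_dvd, ← Nat.modEq_zero_iff_dvd]
      exact ⟨fun h => h1.trans h, fun h => h1.symm.trans h⟩
    rw [h2]
    exact ⟨fun h => (Nat.Coprime.dvd_mul_left hc).1 h, fun h => Dvd.dvd.mul_left h q⟩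
  have h3 : ((Finset.Ioc 0 N).filter (fun m => D ∣ 1 + q * m)).card =
      ((Finset.Ioc s (s + N)).filter (D ∣ ·)).card := by
    apply Finset.card_bij (fun m _ => s + m)
    · intro m hm
      rw [Finset.mem_filter, Finset.mem_Ioc] at hm ⊢
      exact ⟨⟨by omega, by omega⟩, (key m).1 hm.2⟩
    · intro a _ b _ h
      omega
    · intro b hb
      rw [Finset.mem_filter, Finset.mem_Ioc] at hb
      refine ⟨b - s, ?_, by omega⟩
      rw [Finset.mem_filter, Finset.mem_Ioc]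
      refine ⟨⟨by omega, by omega⟩, (key _).2 ?_⟩
      rw [show s + (b - s) = b by omega]
      exact hb.2
  rw [h3]
  exact BtWeak.card_mult s N D hD

/-- Selberg's upper bound for the primes `1 + q m`. -/
theorem primes_le {q R : ℕ} (hq : 1 ≤ q) (hR : 1 ≤ R) (N : ℕ) :
    (((Finset.Ioc 0 N).filter (fun m => (1 + q * m).Prime)).card : ℝ) ≤
      R + N / G q R + (R : ℝ) ^ 4 := by
  classical
  set I := Finset.Ioc 0 N with hI
  have hsplit : (I.filter (fun m => (1 + q * m).Prime)).card ≤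
      R + (I.filter (fun m => (1 + q * m).Prime ∧ R < 1 + q * m)).card := by
    have e : I.filter (fun m => (1 + q * m).Prime) ⊆
        (Finset.Icc 1 R) ∪ I.filter (fun m => (1 + q * m).Prime ∧ R < 1 + q * m) := by
      intro m hm
      simp only [hI, Finset.mem_filter, Finset.mem_union, Finset.mem_Icc, Finset.mem_Ioc] at hm ⊢
      by_cases hmR : 1 + q * m ≤ R
      · left
        have : m ≤ q * m := Nat.le_mul_of_pos_left m hq
        exact ⟨by omega, by omega⟩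
      · right; exact ⟨hm.1, hm.2, by omega⟩
    calc _ ≤ _ := Finset.card_le_card e
      _ ≤ _ := Finset.card_union_le _ _
      _ = _ := by simp
  have hnn : ∀ m, 0 ≤ (∑ d ∈ (S q R).filter (· ∣ 1 + q * m), lam q R d) ^ 2 :=
    fun m => sq_nonneg _
  have h1 : ((I.filter (fun m => (1 + q * m).Prime ∧ R < 1 + q * m)).card : ℝ) ≤
      ∑ m ∈ I, (∑ d ∈ (S q R).filter (· ∣ 1 + q * m), lam q R d) ^ 2 := by
    rw [Finset.card_eq_sum_ones, Nat.cast_sum]
    calc ∑ m ∈ I.filter (fun m => (1 + q * m).Prime ∧ R < 1 + q * m), ((1 : ℕ) : ℝ)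
        ≤ ∑ m ∈ I.filter (fun m => (1 + q * m).Prime ∧ R < 1 + q * m),
            (∑ d ∈ (S q R).filter (· ∣ 1 + q * m), lam q R d) ^ 2 := by
          apply Finset.sum_le_sum
          intro m hm
          simp only [Finset.mem_filter] at hm
          have e : (S q R).filter (· ∣ 1 + q * m) = {1} := by
            ext d
            simp only [Finset.mem_filter, Finset.mem_singleton]
            constructor
            · rintro ⟨hd, hdn⟩
              rcases (Nat.dvd_prime hm.2.1).1 hdn with h | h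
              · exact h
              · exfalso
                have := (mem_S.1 hd).1.2
                omega
            · rintro rfl
              exact ⟨one_mem_S hR, one_dvd _⟩
          rw [e, Finset.sum_singleton, lam_one hR]
          norm_num
      _ ≤ ∑ m ∈ I, (∑ d ∈ (S q R).filter (· ∣ 1 + q * m), lam q R d) ^ 2 :=
          Finset.sum_le_sum_of_subset_of_nonneg (Finset.filter_subset _ _) (fun n _ _ => hnn n)
  have h2 : ∑ m ∈ I, (∑ d ∈ (S q R).filter (· ∣ 1 + q * m), lam q R d) ^ 2 =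
      ∑ d₁ ∈ S q R, ∑ d₂ ∈ S q R, lam q R d₁ * lam q R d₂ *
        ((I.filter (fun m => Nat.lcm d₁ d₂ ∣ 1 + q * m)).card : ℝ) := by
    have : ∀ m ∈ I, (∑ d ∈ (S q R).filter (· ∣ 1 + q * m), lam q R d) ^ 2 =
        ∑ d₁ ∈ S q R, ∑ d₂ ∈ S q R,
          if Nat.lcm d₁ d₂ ∣ 1 + q * m then lam q R d₁ * lam q R d₂ else 0 := by
      intro m _
      rw [sq, Finset.sum_mul_sum, Finset.sum_filter]
      refine Finset.sum_congr rfl fun d₁ _ => ?_
      by_cases hd : d₁ ∣ 1 + q * m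
      · simp only [hd, if_true, Nat.lcm_dvd_iff, true_and]
        rw [Finset.sum_filter]
      · simp [hd, Nat.lcm_dvd_iff]
    rw [Finset.sum_congr rfl this, Finset.sum_comm]
    refine Finset.sum_congr rfl fun d₁ _ => ?_
    rw [Finset.sum_comm]
    refine Finset.sum_congr rfl fun d₂ _ => ?_
    rw [← Finset.sum_filter, Finset.sum_const, nsmul_eq_mul]
    ring
  have h3 : ∑ d₁ ∈ S q R, ∑ d₂ ∈ S q R, lam q R d₁ * lam q R d₂ *
        ((I.filter (fun m => Nat.lcm d₁ d₂ ∣ 1 + q * m)).card : ℝ) ≤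
      ∑ d₁ ∈ S q R, ∑ d₂ ∈ S q R, (N * (lam q R d₁ * lam q R d₂ / (Nat.lcm d₁ d₂ : ℝ)) +
        |lam q R d₁| * |lam q R d₂|) := by
    refine Finset.sum_le_sum fun d₁ hd₁ => Finset.sum_le_sum fun d₂ hd₂ => ?_
    have hpos : 0 < Nat.lcm d₁ d₂ := Nat.lcm_pos (mem_S.1 hd₁).1.1 (mem_S.1 hd₂).1.1
    have hcop : (Nat.lcm d₁ d₂).Coprime q :=
      Nat.Coprime.coprime_dvd_left (Nat.lcm_dvd_mul d₁ d₂)
        (Nat.Coprime.mul_left (mem_S.1 hd₁).2.2 (mem_S.1 hd₂).2.2)
    have hc := card_mult q N _ hpos hcop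
    have e : lam q R d₁ * lam q R d₂ *
        ((I.filter (fun m => Nat.lcm d₁ d₂ ∣ 1 + q * m)).card : ℝ) =
        N * (lam q R d₁ * lam q R d₂ / (Nat.lcm d₁ d₂ : ℝ)) +
          (lam q R d₁ * lam q R d₂) *
            (((I.filter (fun m => Nat.lcm d₁ d₂ ∣ 1 + q * m)).card : ℝ) -
              N / (Nat.lcm d₁ d₂ : ℝ)) := by
      ring
    rw [e]
    have : (lam q R d₁ * lam q R d₂) *
        (((I.filter (fun m => Nat.lcm d₁ d₂ ∣ 1 + q * m)).card : ℝ) - N / (Nat.lcm d₁ d₂ : ℝ))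
        ≤ |lam q R d₁| * |lam q R d₂| := by
      calc _ ≤ |(lam q R d₁ * lam q R d₂) *
            (((I.filter (fun m => Nat.lcm d₁ d₂ ∣ 1 + q * m)).card : ℝ) -
              N / (Nat.lcm d₁ d₂ : ℝ))| := le_abs_self _
        _ = |lam q R d₁| * |lam q R d₂| *
            |(((I.filter (fun m => Nat.lcm d₁ d₂ ∣ 1 + q * m)).card : ℝ) -
              N / (Nat.lcm d₁ d₂ : ℝ))| := by
            rw [abs_mul, abs_mul]
        _ ≤ |lam q R d₁| * |lam q R d₂| * 1 := by
            gcongr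
        _ = _ := mul_one _
    linarith
  have h4 : ∑ d₁ ∈ S q R, ∑ d₂ ∈ S q R, (N * (lam q R d₁ * lam q R d₂ / (Nat.lcm d₁ d₂ : ℝ)) +
        |lam q R d₁| * |lam q R d₂|) =
      N * (1 / G q R) + (∑ d ∈ S q R, |lam q R d|) ^ 2 := by
    simp_rw [Finset.sum_add_distrib, ← Finset.mul_sum]
    rw [quad hR, sq, Finset.sum_mul]
  have h5 : ∑ d ∈ S q R, |lam q R d| ≤ (R : ℝ) ^ 2 := by
    calc ∑ d ∈ S q R, |lam q R d| ≤ ∑ d ∈ S q R, (R : ℝ) := by
          refine Finset.sum_le_sum fun d hd => (abs_lam_le hR d).trans ?_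
          exact_mod_cast (mem_S.1 hd).1.2
      _ = (S q R).card * R := by rw [Finset.sum_const, nsmul_eq_mul]
      _ ≤ R * R := by
          gcongr
          unfold S
          calc _ ≤ _ := Finset.card_filter_le _ _
            _ = R := by simp
      _ = (R : ℝ) ^ 2 := by ring
  have h6 : (∑ d ∈ S q R, |lam q R d|) ^ 2 ≤ (R : ℝ) ^ 4 := by
    have h0 : 0 ≤ ∑ d ∈ S q R, |lam q R d| := by positivity
    calc (∑ d ∈ S q R, |lam q R d|) ^ 2 ≤ ((R : ℝ) ^ 2) ^ 2 := by gcongr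
      _ = _ := by ring
  have h7 : ((I.filter (fun m => (1 + q * m).Prime)).card : ℝ) ≤
      R + ((I.filter (fun m => (1 + q * m).Prime ∧ R < 1 + q * m)).card : ℝ) := by
    exact_mod_cast hsplit
  have h8 : (N : ℝ) * (1 / G q R) = N / G q R := by ring
  linarith

theorem tot_sqf {n : ℕ} (hn : Squarefree n) : n.totient = ∏ p ∈ n.primeFactors, (p - 1) := by
  have h0 : 0 < n := Nat.pos_of_ne_zero hn.ne_zero
  rw [Nat.totient_eq_div_primeFactors_mul, Nat.prod_primeFactors_of_squarefree hn,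
    Nat.div_self h0, one_mul]

theorem inv_tot {s : Finset ℕ} (hs : ∀ p ∈ s, p.Prime) :
    (1 : ℝ) / (((∏ p ∈ s, (p - 1) : ℕ)) : ℝ) = ∏ p ∈ s, (1 / ((p : ℝ) - 1)) := by
  rw [Nat.cast_prod, Finset.prod_div_distrib, Finset.prod_const_one]
  congr 1
  refine Finset.prod_congr rfl fun p hp => ?_
  rw [Nat.cast_sub (hs p hp).one_le, Nat.cast_one]

theorem prod_q {q : ℕ} (hq : 1 ≤ q) :
    ∏ p ∈ q.primeFactors, (1 + 1 / ((p : ℝ) - 1)) = q / q.totient := by
  have h1 : (q.totient : ℝ) = q * ∏ p ∈ q.primeFactors, (1 - (p : ℝ)⁻¹) := by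
    have h := Nat.totient_eq_mul_prod_factors q
    have h2 : ((q.totient : ℚ) : ℝ) = ((q * ∏ p ∈ q.primeFactors, (1 - (p : ℚ)⁻¹) : ℚ) : ℝ) := by
      rw [h]
    push_cast at h2
    exact h2
  have hq0 : (q : ℝ) ≠ 0 := by
    have : 0 < q := hq
    positivity
  have h2 : (∏ p ∈ q.primeFactors, (1 + 1 / ((p : ℝ) - 1))) *
      ∏ p ∈ q.primeFactors, (1 - (p : ℝ)⁻¹) = 1 := by
    rw [← Finset.prod_mul_distrib]
    refine Finset.prod_eq_one fun p hp => ?_
    have h3 : (2 : ℝ) ≤ p := by exact_mod_cast (Nat.prime_of_mem_primeFactors hp).two_le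
    have h4 : (p : ℝ) ≠ 0 := by linarith
    have h5 : (p : ℝ) - 1 ≠ 0 := by
      intro h; linarith
    field_simp
    ring
  have h3 : (q.totient : ℝ) ≠ 0 := by
    have := Nat.totient_pos.2 hq
    positivity
  rw [eq_div_iff h3, h1]
  calc (∏ p ∈ q.primeFactors, (1 + 1 / ((p : ℝ) - 1))) *
      (q * ∏ p ∈ q.primeFactors, (1 - (p : ℝ)⁻¹)) =
      q * ((∏ p ∈ q.primeFactors, (1 + 1 / ((p : ℝ) - 1))) *
        ∏ p ∈ q.primeFactors, (1 - (p : ℝ)⁻¹)) := by ring
    _ = q := by rw [h2, mul_one]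

/-- Comparison with the sum without coprimality. -/
theorem G_cmp {q R : ℕ} (hq : 1 ≤ q) : BtWeak.G R ≤ q / q.totient * G q R := by
  classical
  set T := q.primeFactors with hT
  have hq0 : q ≠ 0 := by omega
  let a : ℕ → Finset ℕ := fun d => d.primeFactors ∩ T
  let b : ℕ → ℕ := fun d => ∏ p ∈ d.primeFactors \ T, p
  have hpr : ∀ d : ℕ, ∀ p ∈ d.primeFactors \ T, p.Prime := fun d p hp =>
    Nat.prime_of_mem_primeFactors (Finset.mem_sdiff.1 hp).1
  have hsplit : ∀ d : ℕ, Squarefree d → (∏ p ∈ a d, p) * b d = d := by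
    intro d hd
    change (∏ p ∈ d.primeFactors ∩ T, p) * (∏ p ∈ d.primeFactors \ T, p) = d
    rw [Finset.prod_inter_mul_prod_sdiff]
    exact Nat.prod_primeFactors_of_squarefree hd
  have hbd : ∀ d : ℕ, Squarefree d → b d ∣ d := fun d hd => ⟨∏ p ∈ a d, p, by
    rw [mul_comm]; exact (hsplit d hd).symm⟩
  have hbp : ∀ d : ℕ, (b d).primeFactors = d.primeFactors \ T := fun d =>
    Nat.primeFactors_prod (hpr d)
  have hbS : ∀ d ∈ BtWeak.S R, b d ∈ S q R := by
    intro d hd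
    rw [BtWeak.mem_S] at hd
    rw [mem_S]
    have h1 := hbd d hd.2
    have h0 : 0 < d := hd.1.1
    refine ⟨⟨Nat.pos_of_dvd_of_pos h1 h0, (Nat.le_of_dvd h0 h1).trans hd.1.2⟩,
      hd.2.squarefree_of_dvd h1, ?_⟩
    refine Nat.Coprime.prod_left fun p hp => ?_
    rw [(hpr d p hp).coprime_iff_not_dvd]
    intro hpq
    exact (Finset.mem_sdiff.1 hp).2 (Nat.mem_primeFactors.2 ⟨hpr d p hp, hpq, hq0⟩)
  have hval : ∀ d ∈ BtWeak.S R, (1 : ℝ) / d.totient =
      (∏ p ∈ a d, (1 / ((p : ℝ) - 1))) * (1 / ((b d).totient : ℝ)) := by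
    intro d hd
    rw [BtWeak.mem_S] at hd
    have hbs : Squarefree (b d) := hd.2.squarefree_of_dvd (hbd d hd.2)
    rw [tot_sqf hd.2, tot_sqf hbs, hbp d, inv_tot (hpr d),
      inv_tot (fun p hp => Nat.prime_of_mem_primeFactors hp)]
    exact (Finset.prod_inter_mul_prod_sdiff _ _ _).symm
  have hinj : Set.InjOn (fun d => (a d, b d)) (BtWeak.S R : Set ℕ) := by
    intro d hd d' hd' h
    have hd1 := (BtWeak.mem_S.1 (Finset.mem_coe.1 hd)).2
    have hd2 := (BtWeak.mem_S.1 (Finset.mem_coe.1 hd')).2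
    have h1 : a d = a d' := congrArg Prod.fst h
    have h2 : b d = b d' := congrArg Prod.snd h
    rw [← hsplit d hd1, ← hsplit d' hd2, h1, h2]
  let F : Finset ℕ × ℕ → ℝ := fun w => (∏ p ∈ w.1, (1 / ((p : ℝ) - 1))) * (1 / (w.2.totient : ℝ))
  have hF0 : ∀ w ∈ T.powerset ×ˢ S q R, 0 ≤ F w := by
    intro w hw
    have h1 := Finset.mem_powerset.1 (Finset.mem_product.1 hw).1
    refine mul_nonneg (Finset.prod_nonneg fun p hp => ?_) (by positivity)
    have h3 : (2 : ℝ) ≤ p := by exact_mod_cast (Nat.prime_of_mem_primeFactors (h1 hp)).two_le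
    have h4 : 0 ≤ (p : ℝ) - 1 := by linarith
    positivity
  calc BtWeak.G R = ∑ d ∈ BtWeak.S R, F (a d, b d) := Finset.sum_congr rfl hval
    _ = ∑ w ∈ (BtWeak.S R).image (fun d => (a d, b d)), F w := (Finset.sum_image hinj).symm
    _ ≤ ∑ w ∈ T.powerset ×ˢ S q R, F w := by
        refine Finset.sum_le_sum_of_subset_of_nonneg ?_ fun w hw _ => hF0 w hw
        intro w hw
        obtain ⟨d, hd, rfl⟩ := Finset.mem_image.1 hw
        exact Finset.mem_product.2 ⟨Finset.mem_powerset.2 Finset.inter_subset_right, hbS d hd⟩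
    _ = (∑ A ∈ T.powerset, ∏ p ∈ A, (1 / ((p : ℝ) - 1))) * G q R := by
        rw [Finset.sum_product, Finset.sum_mul]
        refine Finset.sum_congr rfl fun A _ => ?_
        change ∑ x ∈ S q R, (∏ p ∈ A, (1 / ((p : ℝ) - 1))) * (1 / (x.totient : ℝ)) = _
        rw [← Finset.mul_sum]
        rfl
    _ = q / q.totient * G q R := by
        rw [← Finset.prod_one_add, prod_q hq]

end

end Pool.FEW.BTQaux

namespace Pool.FEW

open BTQaux Pool.Agent.H86 in
theorem btq_thm : S_BTQ := by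
  refine ⟨40, by norm_num, ?_⟩
  intro x q hx hq hqx
  have hx0 : 0 < x := by linarith
  have hx1 : 1 ≤ x := by linarith
  have hlog : 0 < Real.log x := Real.log_pos (by linarith)
  have hq0 : 0 < q := hq
  have hqR : (0 : ℝ) < q := by exact_mod_cast hq0
  have hφ : 0 < q.totient := Nat.totient_pos.2 hq0
  have hφR : (0 : ℝ) < q.totient := by exact_mod_cast hφ
  have hφq : (q.totient : ℝ) ≤ q := by exact_mod_cast Nat.totient_le q
  set R := ⌊x ^ (1 / 16 : ℝ)⌋₊ with hRdef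
  have hR : 1 ≤ R := by
    rw [hRdef, Nat.one_le_floor_iff]
    exact Real.one_le_rpow hx1 (by positivity)
  have hRle : (R : ℝ) ≤ x ^ (1 / 16 : ℝ) := Nat.floor_le (by positivity)
  have hRgt : x ^ (1 / 16 : ℝ) < R + 1 := Nat.lt_floor_add_one _
  set N := ⌊x / q⌋₊ with hN
  have hNle : (N : ℝ) ≤ x / q := Nat.floor_le (by positivity)
  have hmain := primes_le hq hR N
  have hG := BtWeak.G_ge hR
  have hG2 := G_cmp (R := R) hq
  have hlogR : 1 / 16 * Real.log x ≤ Real.log (R + 1) := by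
    rw [← Real.log_rpow hx0]
    exact Real.log_le_log (by positivity) hRgt.le
  have hGp := G_pos (q := q) hR
  have hG' : (q.totient : ℝ) / q * (Real.log x / 32) ≤ G q R := by
    have h1 : Real.log x / 32 ≤ q / q.totient * G q R := by linarith
    calc (q.totient : ℝ) / q * (Real.log x / 32) ≤
        (q.totient : ℝ) / q * (q / q.totient * G q R) := by gcongr
      _ = G q R := by field_simp
  -- the number of primes
  have hcard : ((((Icc 2 ⌊x⌋₊).filter (fun l : ℕ => l.Prime ∧ q ∣ l - 1)).card : ℕ) : ℝ) ≤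
      (((Finset.Ioc 0 N).filter (fun m => (1 + q * m).Prime)).card : ℝ) := by
    have h1 : ((Icc 2 ⌊x⌋₊).filter (fun l : ℕ => l.Prime ∧ q ∣ l - 1)).card ≤
        ((Finset.Ioc 0 N).filter (fun m => (1 + q * m).Prime)).card := by
      apply Finset.card_le_card_of_injOn (fun l => (l - 1) / q)
      · intro l hl
        rw [Finset.mem_coe, Finset.mem_filter, Finset.mem_Icc] at hl
        obtain ⟨⟨h2, h3⟩, h4, m, h5⟩ := hl
        have h6 : (l - 1) / q = m := by rw [h5, Nat.mul_div_cancel_left _ hq0]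
        have hm0 : 0 < m := by
          rcases Nat.eq_zero_or_pos m with h | h
          · rw [h, mul_zero] at h5; omega
          · exact h
        have hl2 : 1 + q * m = l := by omega
        rw [Finset.mem_coe, Finset.mem_filter, Finset.mem_Ioc]
        change (0 < (l - 1) / q ∧ (l - 1) / q ≤ N) ∧ (1 + q * ((l - 1) / q)).Prime
        rw [h6, hl2]
        refine ⟨⟨hm0, ?_⟩, h4⟩
        rw [hN, Nat.le_floor_iff (by positivity), le_div_iff₀ hqR]
        have h7 : (l : ℝ) ≤ x := (Nat.le_floor_iff hx0.le).1 h3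
        have h8 : ((1 + q * m : ℕ) : ℝ) = (l : ℝ) := by rw [hl2]
        push_cast at h8
        nlinarith
      · intro l hl l' hl' h
        rw [Finset.mem_coe, Finset.mem_filter, Finset.mem_Icc] at hl hl'
        obtain ⟨⟨h2, h3⟩, h4, m, h5⟩ := hl
        obtain ⟨⟨h2', h3'⟩, h4', m', h5'⟩ := hl'
        change (l - 1) / q = (l' - 1) / q at h
        rw [h5, h5', Nat.mul_div_cancel_left _ hq0, Nat.mul_div_cancel_left _ hq0] at h
        rw [h] at h5
        omega
    exact_mod_cast h1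
  have t1 : (N : ℝ) / G q R ≤ 32 * x / (q.totient * Real.log x) := by
    calc (N : ℝ) / G q R ≤ (x / q) / ((q.totient : ℝ) / q * (Real.log x / 32)) := by
          gcongr
      _ = 32 * x / (q.totient * Real.log x) := by field_simp
  have hR1 : (1 : ℝ) ≤ R := by exact_mod_cast hR
  have t2 : (R : ℝ) ^ 4 ≤ x ^ (1 / 4 : ℝ) := by
    calc (R : ℝ) ^ 4 ≤ (x ^ (1 / 16 : ℝ)) ^ 4 := by gcongr
      _ = x ^ (1 / 4 : ℝ) := by
          rw [← Real.rpow_natCast, ← Real.rpow_mul hx0.le]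
          norm_num
  have t3 : (R : ℝ) ≤ x ^ (1 / 4 : ℝ) := by
    refine le_trans ?_ t2
    calc (R : ℝ) = R ^ 1 := (pow_one _).symm
      _ ≤ R ^ 4 := pow_le_pow_right₀ hR1 (by norm_num)
  have t4 : 2 * x ^ (1 / 4 : ℝ) ≤ 8 * x / (q.totient * Real.log x) := by
    rw [le_div_iff₀ (by positivity)]
    have l1 : Real.log x ≤ x ^ (1 / 4 : ℝ) / (1 / 4) := Real.log_le_rpow_div hx0.le (by positivity)
    have l2 : (q : ℝ) ≤ x ^ (1 / 2 : ℝ) := by
      rw [← Real.sqrt_eq_rpow]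
      exact Real.le_sqrt_of_sq_le hqx
    calc 2 * x ^ (1 / 4 : ℝ) * (q.totient * Real.log x) ≤
        2 * x ^ (1 / 4 : ℝ) * (x ^ (1 / 2 : ℝ) * (x ^ (1 / 4 : ℝ) / (1 / 4))) := by
          have := hφq.trans l2
          gcongr
      _ = 8 * (x ^ (1 / 4 : ℝ) * x ^ (1 / 2 : ℝ) * x ^ (1 / 4 : ℝ)) := by ring
      _ = 8 * x := by
          rw [← Real.rpow_add hx0, ← Real.rpow_add hx0]
          norm_num
  have t5 : 40 * x / (q.totient * Real.log x) = 32 * x / (q.totient * Real.log x) +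
      8 * x / (q.totient * Real.log x) := by
    ring
  rw [t5]
  linarith

end Pool.FEW
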